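import Pool.Agent.H70.RK.T2

/-!
# INS, ANL: the instance strings and their answers
-/

set_option autoImplicit false

namespace Pool.Agent.H46.RK

open Pool.Agent.H6.NB Pool.Agent.H70.OQ Pool.Agent.H70.RK

/-- The instance strings determine the machine and the input. -/
theorem inst_inj (hCOD : Pool.Agent.H6.NB.T_COD) {c c' i j : ℕ} {x y : List Bool}
    (h : inst c i x = inst c' j y) : i = j ∧ x = y := by
  obtain ⟨h1, h2, -⟩ := hCOD.1 _ _ _ _ _ _ h
  refine ⟨?_, h1⟩
  have := congrArg List.length h2
  simpa using this

/-- (INS) -/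
theorem pf_INS (hCOD : Pool.Agent.H6.NB.T_COD) : Pool.Agent.H70.RK.T_INS := by
  intro k V O i x
  constructor
  · rintro ⟨j, y, h, hy⟩
    obtain ⟨h1, h2⟩ := inst_inj hCOD h
    subst h1
    subst h2
    exact hy
  · intro h
    exact ⟨i, x, rfl, h⟩

theorem inst_length (hCOD : Pool.Agent.H6.NB.T_COD) (c i : ℕ) (x : List Bool) :
    (x.length ^ c + c + 1) ^ 2 ≤ (inst c i x).length := by
  unfold inst
  rw [hCOD.2]
  omega

/-- The value of a tree depends only on the short strings. -/
theorem eval_short (m : ℕ) (O O' : List Bool → Bool) (h : ∀ w : List Bool, w.length ≤ m → O w = O' w) :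
    ∀ T : DT, T.Short m → T.eval O = T.eval O'
  | .leaf _, _ => rfl
  | .node w l r, hT => by
      obtain ⟨h1, h2, h3⟩ := hT
      have e1 := eval_short m O O' h l h2
      have e2 := eval_short m O O' h r h3
      simp only [DT.eval, h w h1, e1, e2]

/-- Alternating quantifiers over equivalent statements. -/
theorem alt_congr (R : List Bool → Prop) (k : ℕ) : ∀ (b : Bool) (P P' : List (List Bool) → Prop),
    (∀ ws : List (List Bool), ws.length = k → (∀ w ∈ ws, R w) → (P ws ↔ P' ws)) →
    (Alt R b k P ↔ Alt R b k P') := by
  induction k with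
  | zero =>
    intro b P P' h
    cases b <;> exact h [] rfl (by simp)
  | succ k ih =>
    intro b P P' h
    have h1 : ∀ (b : Bool) (w : List Bool), R w → (Alt R b k (fun ws => P (w :: ws)) ↔
        Alt R b k fun ws => P' (w :: ws)) := by
      intro b w hw
      apply ih
      intro ws hws hR
      apply h
      · rw [List.length_cons, hws]
      · intro v hv
        rcases List.mem_cons.1 hv with rfl | hv
        · exact hw
        · exact hR v hv
    cases b
    · exact forall_congr' fun w => imp_congr_right fun hw => h1 true w hw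
    · exact exists_congr fun w => and_congr_right fun hw => h1 false w hw

/-- (ANL) -/
theorem pf_ANL (hCOD : Pool.Agent.H6.NB.T_COD) : Pool.Agent.H70.RK.T_ANL := by
  intro k V O O' s h
  refine exists_congr fun i => exists_congr fun x => and_congr_right fun hs => ?_
  have h1 := inst_length hCOD (V i).c i x
  rw [← hs] at h1
  refine alt_congr _ k true _ _ fun ws hws hR => ?_
  rw [eval_short _ O O' ?_ _ ((V i).short x ws hws hR)]
  intro v hv
  apply h
  nlinarith

end Pool.Agent.H46.RK
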