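import Pool.Agent.H70.RK.T2

/-!
# CON: contents of the blocks
-/

set_option autoImplicit false

namespace Pool.Agent.H46.RK

open Pool.Agent.H6.NB Pool.Agent.H70.OQ Pool.Agent.H70.EH Pool.Agent.H70.EI
open Pool.Agent.H78.XQ Pool.Agent.H70.RK

theorem con_aux (hBLX : T_BLX) (hMAS : T_MAS) (hCLB : Pool.Agent.H6.NB.T_CLB)
    (r l q R n : ℕ) (hSz : Sz r l q R n) (b : Bool) :
    ∃ c : ((Fin (2 * l) → Bool) → VV q → Bool) × ((Fin n → Bool) → Bool), OkB q l R n b c := by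
  have hS : 2 ≤ 2 ^ 2 ^ r ^ 2 := by
    calc 2 = 2 ^ 1 := by norm_num
      _ ≤ 2 ^ 2 ^ r ^ 2 := Nat.pow_le_pow_right (by norm_num) Nat.one_le_two_pow
  have h1 := hBLX r l q R n hSz b (fun _ => true)
    (fun P u h => (hCLB _ _ hS).1 _ _) (fun P => (hCLB _ _ hS).1 _ _)
  obtain ⟨_, h3, _⟩ := hMAS q l R n
  by_contra hno
  have hno' : ∀ c : ((Fin (2 * l) → Bool) → VV q → Bool) × ((Fin n → Bool) → Bool),
      ¬ OkB q l R n b c := fun c h => hno ⟨c, h⟩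
  have h4 : ∑ c, mB q l R n b c * bi true = 0 := by
    apply Finset.sum_eq_zero
    intro c _
    unfold mB
    rw [if_neg (hno' c), zero_mul]
  have h5 : ∑ c, m0 q l n c * bi true = 1 := by
    rw [← Finset.sum_mul, h3]
    simp [bi]
  rw [h4, h5] at h1
  have h6 : ((1 : ℝ) / 8) ^ r ≤ 1 := pow_le_one₀ (by norm_num) (by norm_num)
  have h7 : (1 : ℝ) ≤ 2 ^ 2 ^ r := one_le_pow₀ (by norm_num)
  have h8 : ((1 : ℝ) / 8) ^ r / (4 * 2 ^ 2 ^ r) ≤ 1 / 4 := by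
    have h9 : (0 : ℝ) ≤ (1 / 8) ^ r := by positivity
    rw [div_le_div_iff₀ (by positivity) (by norm_num)]
    nlinarith
  linarith

theorem pf_CON (hBLX : T_BLX) (hMAS : T_MAS) (hSTR : Pool.Agent.H70.RK.T_STR)
    (hCLB : Pool.Agent.H6.NB.T_CLB) : Pool.Agent.H70.RK.T_CON :=
  fun k p b hk => con_aux hBLX hMAS hCLB _ _ _ _ _ ((hSTR k hk).2.2.2.2 p) b

end Pool.Agent.H46.RK
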